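import Pool.Agent.Helper21.BisMain

set_option linter.unusedSectionVars false

namespace Pool.Agent.Results.MP_084b5f_co.ThirdBisection

open Finset

/-- The number `e(S)` of edges of `G` with both ends in `S`. -/
noncomputable def edgesIn {V : Type} (G : SimpleGraph V) (S : Finset V) : ℕ :=
  {e : Sym2 V | e ∈ G.edgeSet ∧ ∀ v ∈ e, v ∈ S}.ncard

/-- `(S, T)` is a bisection of the vertex set: the classes partition it and their sizes differ by
at most one. -/
def IsBisection {V : Type} [Fintype V] [DecidableEq V] (S T : Finset V) : Prop :=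
  Disjoint S T ∧ S ∪ T = univ ∧ #S ≤ #T + 1 ∧ #T ≤ #S + 1

/-- The constant `c` works for minimum degree `k`: every finite simple graph with `m` edges, all of
whose vertices have at least `k` neighbours, has a bisection with at most `c * m` edges inside
each class. -/
def Admissible (k : ℕ) (c : ℝ) : Prop :=
  ∀ (V : Type) [Fintype V] [DecidableEq V] (G : SimpleGraph V),
    (∀ v : V, k ≤ (G.neighborSet v).ncard) →
      ∃ S T : Finset V, IsBisection S T ∧
        max (edgesIn G S : ℝ) (edgesIn G T : ℝ) ≤ c * (G.edgeSet.ncard : ℝ)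

section

open Pool.Agent.Helper21.Bis

variable {V : Type} [Fintype V] [DecidableEq V]

open Classical in
/-- The adjacency matrix. -/
noncomputable def adjM (G : SimpleGraph V) : V → V → ℤ := fun a b => if G.Adj a b then 1 else 0

lemma adjM_isAdj (G : SimpleGraph V) : IsAdj (adjM G) where
  symm := by
    intro a b
    unfold adjM
    by_cases h : G.Adj a b
    · rw [if_pos h, if_pos h.symm]
    · rw [if_neg h, if_neg fun h' => h h'.symm]
  diag := by intro a; simp [adjM]
  zo := by
    intro a b
    unfold adjM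
    split_ifs
    · exact Or.inr rfl
    · exact Or.inl rfl

open Classical in
lemma N_adjM (G : SimpleGraph V) (v : V) (S : Finset V) :
    N (adjM G) v S = (#(S.filter fun b => G.Adj v b) : ℤ) := by
  unfold N adjM
  rw [card_filter]
  push_cast
  rfl

open Classical in
lemma E2_adjM (G : SimpleGraph V) (S : Finset V) : E2 (adjM G) S = 2 * (edgesIn G S : ℤ) := by
  let H : SimpleGraph V :=
    { Adj := fun a b => G.Adj a b ∧ a ∈ S ∧ b ∈ S
      symm := ⟨fun a b h => ⟨h.1.symm, h.2.2, h.2.1⟩⟩
      loopless := ⟨fun a h => G.loopless.irrefl a h.1⟩ }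
  have h1 : ∑ v, H.degree v = 2 * #H.edgeFinset := H.sum_degrees_eq_twice_card_edges
  have h2 : edgesIn G S = #H.edgeFinset := by
    unfold edgesIn
    rw [← Set.ncard_coe_finset]
    congr 1
    ext e
    rw [SimpleGraph.coe_edgeFinset]
    induction e with
    | _ a b =>
      simp only [Set.mem_ofPred_eq, SimpleGraph.mem_edgeSet, Sym2.mem_iff]
      constructor
      · rintro ⟨h, h'⟩
        exact ⟨h, h' a (Or.inl rfl), h' b (Or.inr rfl)⟩
      · rintro ⟨h, ha, hb⟩
        refine ⟨h, ?_⟩
        rintro v (rfl | rfl) <;> assumption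
  have h3 : E2 (adjM G) S = ((∑ v, H.degree v : ℕ) : ℤ) := by
    unfold E2
    rw [← Finset.sum_subset (subset_univ S) (f := fun v => H.degree v)]
    · push_cast
      refine sum_congr rfl fun v hv => ?_
      rw [N_adjM, ← SimpleGraph.card_neighborFinset_eq_degree]
      congr 2
      ext b
      simp only [mem_filter, SimpleGraph.mem_neighborFinset]
      constructor
      · rintro ⟨hb, h⟩
        exact ⟨h, hv, hb⟩
      · rintro ⟨h, _, hb⟩
        exact ⟨hb, h⟩
    · intro v _ hv
      rw [← SimpleGraph.card_neighborFinset_eq_degree, card_eq_zero, eq_empty_iff_forall_notMem]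
      intro b hb
      rw [SimpleGraph.mem_neighborFinset] at hb
      exact hv hb.2.1
  rw [h3, h1, h2]
  push_cast
  ring

lemma edgesIn_univ (G : SimpleGraph V) : edgesIn G univ = G.edgeSet.ncard := by
  unfold edgesIn
  congr 1
  ext e
  simp

open Classical in
lemma admissible_third : Admissible 2 (1 / 3) := by
  intro V _ _ G hdeg
  obtain ⟨S, T, hd, hun, hc1, hc2, hb1, hb2⟩ := exists_good _ (univ : Finset V) (adjM G)
    (adjM_isAdj G) rfl (by
      intro z _
      rw [N_adjM]
      have h1 := hdeg z
      have h2 : (G.neighborSet z).ncard = #(univ.filter fun b => G.Adj z b) := by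
        rw [← Set.ncard_coe_finset]
        congr 1
        ext b
        simp
      rw [h2] at h1
      exact_mod_cast h1)
  refine ⟨S, T, ⟨hd, hun, hc1, hc2⟩, ?_⟩
  rw [E2_adjM, E2_adjM, edgesIn_univ] at hb1 hb2
  have h1 : (3 * edgesIn G S : ℤ) ≤ G.edgeSet.ncard := by linarith
  have h2 : (3 * edgesIn G T : ℤ) ≤ G.edgeSet.ncard := by linarith
  have h1' : (3 * edgesIn G S : ℝ) ≤ G.edgeSet.ncard := by exact_mod_cast h1
  have h2' : (3 * edgesIn G T : ℝ) ≤ G.edgeSet.ncard := by exact_mod_cast h2
  apply max_le <;> linarith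

end

open Classical in
lemma third_le {c : ℝ} (hc : Admissible 2 c) : 1 / 3 ≤ c := by
  obtain ⟨S, T, ⟨hd, hun, hc1, hc2⟩, hmax⟩ := hc (Fin 3) ⊤ (by
    intro v
    have : (⊤ : SimpleGraph (Fin 3)).neighborSet v = ((univ.erase v : Finset (Fin 3)) : Set (Fin 3)) := by
      ext b
      simp [eq_comm]
    rw [this, Set.ncard_coe_finset, card_erase_of_mem (mem_univ v)]
    simp)
  have hm : (⊤ : SimpleGraph (Fin 3)).edgeSet.ncard = 3 := by
    rw [← SimpleGraph.coe_edgeFinset, Set.ncard_coe_finset,
      SimpleGraph.card_edgeFinset_top_eq_card_choose_two]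
    rfl
  have key : ∀ R : Finset (Fin 3), 2 ≤ #R → 1 ≤ edgesIn (⊤ : SimpleGraph (Fin 3)) R := by
    intro R hR
    obtain ⟨a, ha, b, hb, hab⟩ := one_lt_card.mp (show 1 < #R from hR)
    unfold edgesIn
    rw [Nat.one_le_iff_ne_zero, ← Nat.pos_iff_ne_zero, Set.ncard_pos]
    refine ⟨s(a, b), ?_, ?_⟩
    · rw [SimpleGraph.mem_edgeSet]; exact hab
    · intro v hv
      rcases Sym2.mem_iff.mp hv with rfl | rfl <;> assumption
  have hsum : #S + #T = 3 := by
    rw [← card_union_of_disjoint hd, hun]; simp
  rw [hm] at hmax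
  have h1 : (1 : ℝ) ≤ max (edgesIn (⊤ : SimpleGraph (Fin 3)) S : ℝ)
      (edgesIn (⊤ : SimpleGraph (Fin 3)) T : ℝ) := by
    rcases Nat.lt_or_ge #S 2 with h | h
    · exact le_max_of_le_right (by exact_mod_cast key T (by omega))
    · exact le_max_of_le_left (by exact_mod_cast key S h)
  push_cast at hmax
  linarith

/-- `c(2) = 1/3`: the least constant `c` such that every graph with `m` edges and minimum degree at
least two has a bisection with at most `c * m` edges inside each class is `1/3`. -/
theorem result : IsLeast {c : ℝ | Admissible 2 c} (1 / 3) :=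
  ⟨admissible_third, fun _ hc => third_le hc⟩

end Pool.Agent.Results.MP_084b5f_co.ThirdBisection
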